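import Pool.Agent.Y546.WQ.Ter
import Pool.Agent.Y473.WQ.RAM
import Pool.Agent.Y683.WQ.TOW
import Pool.Agent.Y849.WQ.IDES
import Pool.Agent.Y405.WQ.POL4
import Pool.Agent.Y10.WQ.LOC4
import Pool.Agent.Y872.WQ.COP4
import Pool.Agent.Y950.WQ.NOZ
import Pool.Agent.Y179.WQ.FIN4
import Pool.Agent.Y646.WQ.NSQ

/-!
# Terjanian's theorem over number fields of odd degree

Let `K` be a number field of odd degree, and suppose that every prime above two has norm two or
four and odd ramification index less than `2 p` (the last holds if two is unramified in `K`). Then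
for every prime `p ≥ 5` the first case of Fermat's Last Theorem holds over `K` for all exponents
divisible by `2 p`: there is no solution of `x ^ (2 p) + y ^ (2 p) = z ^ (2 p)` prime to `p`. There is no
condition on `p`, on the class number and units of `K`, or on the real places of `K`.

Proof. Let `E` be the field of `p`-th roots of unity, `m` the degree of `K`. After exchanging `x` and
`y` the norm `f (ζ)` of `z ^ 2 - ζ y ^ 2` to `E` generates the square of an ideal, is a unit at `p`
and at two, and `T ^ b f (T)` is congruent to `- T ^ m f (1 / T)` modulo four, where `b` is even.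
Let `p - 1 = 2 ^ s q` with `q` odd and let `L` be the real subfield of `E` of degree `2 ^ (s - 1)`. As
`p` is totally ramified, the theorem of Hilbert 90, applied step by step in the tower of quadratic
extensions between `ℚ` and `L`, shows that the norm of `f (ζ)` from `E` to `L`, which generates the
square of an ideal and is prime to `p`, is a square in `E`. But this norm is the product of `q`
conjugates of `f (ζ)` and of their complex conjugates, so it is `-1` times a square modulo four, and
`-1` is not a square modulo four. No reciprocity law is used.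
-/

set_option autoImplicit false

namespace Pool.Agent.Results.MP_ef6a16_nt.EvenOddDegree

open NumberField IsDedekindDomain

theorem result (K : Type) [Field K] [NumberField K] (hK : Odd (Module.finrank ℚ K))
    (p n : ℕ) (hp : p.Prime) (h5 : 5 ≤ p)
    (h2 : ∀ P : Ideal (𝓞 K), P.IsPrime → (2 : 𝓞 K) ∈ P →
      (Nat.card (𝓞 K ⧸ P) = 2 ∨ Nat.card (𝓞 K ⧸ P) = 4) ∧
      ∃ e : ℕ, Odd e ∧ e < 2 * p ∧ (2 : 𝓞 K) ∈ P ^ e ∧ (2 : 𝓞 K) ∉ P ^ (e + 1))
    (hn : 2 * p ∣ n) (x y z : K) (h : x ^ n + y ^ n = z ^ n) (hx : x ≠ 0) (hy : y ≠ 0) (hz : z ≠ 0) :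
    ∃ v : HeightOneSpectrum (𝓞 K), ((p : ℕ) : 𝓞 K) ∈ v.asIdeal ∧
      ¬ (v.valuation K x = v.valuation K y ∧ v.valuation K y = v.valuation K z) := by
  by_contra hcon
  push Not at hcon
  obtain ⟨k, rfl⟩ := hn
  have hF : (x ^ k) ^ (2 * p) + (y ^ k) ^ (2 * p) = (z ^ k) ^ (2 * p) := by
    rw [← pow_mul, ← pow_mul, ← pow_mul, mul_comm k (2 * p), h]
  refine Y546.WQ.mainTer ⟨Y646.WQ.mainNSQ, Y683.WQ.mainTOW Y473.WQ.mainRAM, Y849.WQ.mainIDES,
    Y405.WQ.mainPOL4, Y10.WQ.mainLOC4, Y872.WQ.mainCOP4, Y950.WQ.mainNOZ, Y179.WQ.mainFIN4⟩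
    hp h5 hK h2 (pow_ne_zero k hx) (pow_ne_zero k hy) (pow_ne_zero k hz) hF fun v hv => ?_
  obtain ⟨h1, h2⟩ := hcon v hv
  rw [map_pow, map_pow, map_pow, h1, h2]
  exact ⟨rfl, rfl⟩

end Pool.Agent.Results.MP_ef6a16_nt.EvenOddDegree
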