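import Pool.Agent.Y546.WQ.TerR
import Pool.Agent.Y700.WQ.KA
import Pool.Agent.Y448.WQ.KB
import Pool.Agent.Y363.WQ.KC
import Pool.Agent.Y693.WQ.KRAM
import Pool.Agent.Y837.WQ.KTOW
import Pool.Agent.Y651.WQ.KFIN
import Pool.Agent.Y936.WQ.KTWO
import Pool.Agent.Y849.WQ.IDES
import Pool.Agent.Y950.WQ.NOZ

/-!
# Terjanian's theorem over totally real fields of odd narrow class number

Let `K` be a totally real number field in which every totally positive element with even valuations
is a square; this holds if and only if the narrow class number of `K` is odd. Suppose that some prime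
of `K` above two has norm two and odd ramification index `e` (for example that two has an unramified
prime divisor of degree one). Let `p` be an odd prime, `e ≤ p`, which is inert in `K`: it generates a
prime ideal. Then the first case of Fermat's Last Theorem holds over `K` for all exponents
divisible by `2 p`.

Proof. Let `x ^ (2 p) + y ^ (2 p) = z ^ (2 p)` be prime to `p`, and let `P` be the prime above two. After
exchanging `x` and `y` we may assume that `P` divides `x`, so `z ^ 2 = y ^ 2` modulo `P ^ (2 e)`. Let `M`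
be the field of `p`-th roots of unity over `K`; it is totally ramified at `p`. The element
`a = z ^ 2 - ζ y ^ 2` of `M` generates the square of an ideal and is a unit at `p`. Let `p - 1 = 2 ^ s q`
with `q` odd, and let `L` be the real subfield of `M` with `[L : K] = 2 ^ (s - 1)`. By descending
induction along the tower between `K` and `L` (Hilbert 90) every totally positive element of `L`
with even valuations is a square, so the norm of `a` from `M` to `L` is a square. But this norm is the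
product of the `q` pairs of `a' = z ^ 2 - ζ' y ^ 2` and `z ^ 2 - y ^ 2 / ζ'`, which is `- a' / ζ'` modulo `P ^ (2 e)`,
so `-1` is a square modulo four at `P`, which is impossible since `e` is odd.
-/

set_option autoImplicit false

namespace Pool.Agent.Results.MP_ef6a16_nt.EvenTotallyReal

open NumberField IsDedekindDomain

theorem result (K : Type) [Field K] [NumberField K]
    (hreal : ∀ (φ : K →+* ℂ) (a : K), ∃ r : ℝ, φ a = r)
    (hnar : ∀ a : K, a ≠ 0 → (∀ φ : K →+* ℂ, 0 < (φ a).re) →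
      (∀ v : HeightOneSpectrum (𝓞 K), ∃ m : ℤ, v.valuation K a = WithZero.exp (2 * m)) →
      ∃ b : K, a = b ^ 2)
    (p n e : ℕ) (hp : p.Prime) (hp2 : p ≠ 2) (hin : (Ideal.span {((p : ℕ) : 𝓞 K)}).IsPrime)
    (he : Odd e) (hep : e ≤ p)
    (h2 : ∃ P : Ideal (𝓞 K), P.IsPrime ∧ Nat.card (𝓞 K ⧸ P) = 2 ∧ (2 : 𝓞 K) ∈ P ^ e ∧
      (2 : 𝓞 K) ∉ P ^ (e + 1))
    (hn : 2 * p ∣ n) (x y z : K) (h : x ^ n + y ^ n = z ^ n) (hx : x ≠ 0) (hy : y ≠ 0) (hz : z ≠ 0) :
    ∃ v : HeightOneSpectrum (𝓞 K), ((p : ℕ) : 𝓞 K) ∈ v.asIdeal ∧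
      ¬ (v.valuation K x = v.valuation K y ∧ v.valuation K y = v.valuation K z) := by
  by_contra hcon
  push Not at hcon
  obtain ⟨k, rfl⟩ := hn
  obtain ⟨P, hP, hP2, h2e, h2e'⟩ := h2
  have hP0 : P ≠ ⊥ := by
    rintro rfl
    have h3 : (⊥ : Ideal (𝓞 K)) ^ e ≤ ⊥ := Ideal.pow_le_self (by rcases he with ⟨k, hk⟩; omega)
    have h4 := h3 h2e
    rw [Ideal.mem_bot] at h4
    norm_num at h4
  have hF : (x ^ k) ^ (2 * p) + (y ^ k) ^ (2 * p) = (z ^ k) ^ (2 * p) := by
    rw [← pow_mul, ← pow_mul, ← pow_mul, mul_comm k (2 * p), h]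
  refine Y546.WQ.mainRT ⟨Y700.WQ.mainKA, Y448.WQ.mainKB, Y363.WQ.mainKC,
    Y837.WQ.mainKTOW Y693.WQ.mainKRAM, Y651.WQ.mainKFIN, Y936.WQ.mainKTWO, Y849.WQ.mainIDES,
    Y950.WQ.mainNOZ⟩ hp hp2 hreal hnar hin ⟨P, hP, hP0⟩ hP2 e he hep h2e h2e' (pow_ne_zero k hx)
    (pow_ne_zero k hy) (pow_ne_zero k hz) hF fun v hv => ?_
  obtain ⟨h1, h2⟩ := hcon v hv
  rw [map_pow, map_pow, map_pow, h1, h2]
  exact ⟨rfl, rfl⟩

end Pool.Agent.Results.MP_ef6a16_nt.EvenTotallyReal
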