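import Pool.Agent.Y546.WQ.All

/-!
# The first case of Fermat's Last Theorem over all number fields of odd degree

Let `m` be odd and let `p` be a prime such that `2 ^ (p - 1)` is not congruent to `1` modulo `p ^ 2`
and such that either `2 m + 3 ≤ p` and `p` does not divide `B (p - 3), B (p - 5), ..., B (p - 2 m - 1)`,
or `m (i + 1) (i + 2) + 3 ≤ p`, where `i` is the index of irregularity of `p`. Then over every number
field `K` of degree `m` the first case of Fermat's Last Theorem holds for every exponent divisible
by `p`. There is no condition on the class group, the units, the ramification or the real places of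
`K`, and the condition on `p` depends only on the degree.

Proof. Let `X ^ p + Y ^ p + Z ^ p = 0` in the integers of `K`, in the first case, and let
`P (T) = N (X + T Y)`, an integer polynomial of degree `m`. Its value at a `p`-th root of unity `ζ` is,
up to the rational number `P (1)`, the `p`-th power of an ideal of the field of `p`-th roots of unity
(a product of conjugates in a field containing all conjugates of `K`). The Jacobi sums
`J (χ, χ ^ a)` and their factorisation (Stickelberger) give for every `a` a relation
`θ_a (P (ζ) / P (1)) = ζ ^ i g ^ p`. Modulo `p` these are congruences for `P (T)` modulo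
`(T - 1) ^ (p - 1)` in which the Bernoulli numbers appear, and under each of the two conditions on
`p` they force `P (T) = T ^ m P (1 / T)` modulo `p` (for the second one by an argument of Eichler,
comparing poles of the logarithmic derivatives of `P (T ^ j)`). As `m` is odd, `P (-1) = N (X - Y)`
vanishes modulo `p`, so `X = Y` modulo some prime `v` above `p`. Since `X + Y + Z = 0` modulo `v`,
the equation modulo `p v` gives `2 ^ p = 2` modulo `p ^ 2`.
-/

set_option autoImplicit false

namespace Pool.Agent.Results.MP_ef6a16_nt.OddDegreeFirstCase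

open NumberField IsDedekindDomain

/-- The even numbers `k` with `2 ≤ k ≤ p - 3` for which `p` divides the numerator of the Bernoulli
number with index `k`. Their number is the index of irregularity of `p`. -/
def Irregular (p : ℕ) : Finset ℕ :=
  (Finset.range p).filter fun k => Even k ∧ 2 ≤ k ∧ k + 3 ≤ p ∧ (p : ℤ) ∣ (bernoulli k).num

theorem result (K : Type) [Field K] [NumberField K] (m : ℕ) (hK : Module.finrank ℚ K = m)
    (hm : Odd m) (p n : ℕ) (hp : p.Prime) (hW : ¬ p ^ 2 ∣ 2 ^ (p - 1) - 1)
    (hB : (2 * m + 3 ≤ p ∧ ∀ k ∈ Irregular p, k + 2 * m + 1 < p) ∨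
      m * (((Irregular p).card + 1) * ((Irregular p).card + 2)) + 3 ≤ p)
    (hn : p ∣ n) (x y z : K) (h : x ^ n + y ^ n = z ^ n) (hx : x ≠ 0) (hy : y ≠ 0) (hz : z ≠ 0) :
    ∃ v : HeightOneSpectrum (𝓞 K), ((p : ℕ) : 𝓞 K) ∈ v.asIdeal ∧
      ¬ (v.valuation K x = v.valuation K y ∧ v.valuation K y = v.valuation K z) := by
  subst hK
  by_contra hcon
  push Not at hcon
  obtain ⟨k, rfl⟩ := hn
  have hp3 : 3 ≤ p := by
    rcases hB with h | h
    · omega
    · omega
  have hodd : Odd p := hp.odd_of_ne_two (by omega)
  have hF : (x ^ k) ^ p + (y ^ k) ^ p + (-z ^ k) ^ p = 0 := by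
    rw [hodd.neg_pow, ← pow_mul, ← pow_mul, ← pow_mul, mul_comm k p, h]
    ring
  refine Y546.WQ.mainAll hp hB (Or.inl ⟨hm, hW⟩) (pow_ne_zero k hx) (pow_ne_zero k hy)
    (neg_ne_zero.2 (pow_ne_zero k hz)) hF fun v hv => ?_
  obtain ⟨h1, h2⟩ := hcon v hv
  rw [Valuation.map_neg, map_pow, map_pow, map_pow, h1, h2]
  exact ⟨rfl, rfl⟩

end Pool.Agent.Results.MP_ef6a16_nt.OddDegreeFirstCase
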