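import Pool.Agent.Y546.WQ.All2

/-!
# The first case of Fermat's Last Theorem over number fields in which all primes above two have
# norm two

Let `K` be a number field of any degree `m` (even degrees are allowed) all of whose primes above two
have norm two, for example a field in which two is totally ramified or splits completely. Suppose
that `m` is prime to three or that there is only one prime above two. Let `p` be a prime such that
`2 ^ (p - 1)` is not congruent to `1` modulo `p ^ 2`, and such that either `2 m + 3 ≤ p` and `p` does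
not divide `B (p - 3), B (p - 5), ..., B (p - 2 m + 1)` (no condition for `m = 1`), or the index of
irregularity `i` of `p` satisfies `m (i + 1) (i + 2) + 3 ≤ p`. Then the first case of Fermat's Last
Theorem holds over `K` for all exponents divisible by `p`.

Proof. Let `X ^ p + Y ^ p + Z ^ p = 0` in the first case, `P (T) = N (X + T Y)`. The value of `P` at a
`p`-th root of unity is a rational number times the `p`-th power of an ideal. Modulo a prime above
two of a field containing the conjugates of `K` each conjugate of `(X, Y, Z)` is one of `(0, 1, 1)`,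
`(1, 0, 1)`, `(1, 1, 0)`; if these occur `a`, `b`, `c` times then `P (T) = T ^ a (1 + T) ^ c` modulo
two. The Stickelberger relation modulo two determines its root of unity up to the exponent
`(m + a - b) / 2` unless `2 ^ (p - 1) = 1` modulo `p ^ 2`. Modulo `p` the relations of all Jacobi sums
give `T ^ m P (T) = T ^ (m + a - b) T ^ m P (1 / T)` to a high order at `T = 1`, hence exactly, which
forces `a = b`; in the same way `b = c`, so `m = 3 a`, and all three types occur.
-/

set_option autoImplicit false

namespace Pool.Agent.Results.MP_ef6a16_nt.TwoAdicFirstCase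

open NumberField IsDedekindDomain

/-- The even numbers `k` with `2 ≤ k ≤ p - 3` for which `p` divides the numerator of the Bernoulli
number with index `k`. Their number is the index of irregularity of `p`. -/
def Irregular (p : ℕ) : Finset ℕ :=
  (Finset.range p).filter fun k => Even k ∧ 2 ≤ k ∧ k + 3 ≤ p ∧ (p : ℤ) ∣ (bernoulli k).num

theorem result (K : Type) [Field K] [NumberField K] (m : ℕ) (hK : Module.finrank ℚ K = m)
    (h2 : ∀ P : Ideal (𝓞 K), P.IsPrime → (2 : 𝓞 K) ∈ P → Nat.card (𝓞 K ⧸ P) = 2)
    (hm : ¬ 3 ∣ m ∨ ∀ P P' : Ideal (𝓞 K), P.IsPrime → P'.IsPrime →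
      (2 : 𝓞 K) ∈ P → (2 : 𝓞 K) ∈ P' → P = P')
    (p n : ℕ) (hp : p.Prime) (hW : ¬ p ^ 2 ∣ 2 ^ (p - 1) - 1)
    (hB : (2 * m + 3 ≤ p ∧ ∀ k ∈ Irregular p, k + 2 * m < p) ∨
      m * (((Irregular p).card + 1) * ((Irregular p).card + 2)) + 3 ≤ p)
    (hn : p ∣ n) (x y z : K) (h : x ^ n + y ^ n = z ^ n) (hx : x ≠ 0) (hy : y ≠ 0) (hz : z ≠ 0) :
    ∃ v : HeightOneSpectrum (𝓞 K), ((p : ℕ) : 𝓞 K) ∈ v.asIdeal ∧
      ¬ (v.valuation K x = v.valuation K y ∧ v.valuation K y = v.valuation K z) := by
  subst hK
  by_contra hcon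
  push Not at hcon
  obtain ⟨k, rfl⟩ := hn
  have hp3 : 3 ≤ p := by
    rcases hB with h | h
    · omega
    · omega
  have hodd : Odd p := hp.odd_of_ne_two (by omega)
  have hF : (x ^ k) ^ p + (y ^ k) ^ p + (-z ^ k) ^ p = 0 := by
    rw [hodd.neg_pow, ← pow_mul, ← pow_mul, ← pow_mul, mul_comm k p, h]
    ring
  refine Y546.WQ.mainTwo hp hB hW h2 hm (pow_ne_zero k hx) (pow_ne_zero k hy)
    (neg_ne_zero.2 (pow_ne_zero k hz)) hF fun v hv => ?_
  obtain ⟨h1, h2⟩ := hcon v hv
  rw [Valuation.map_neg, map_pow, map_pow, map_pow, h1, h2]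
  exact ⟨rfl, rfl⟩

end Pool.Agent.Results.MP_ef6a16_nt.TwoAdicFirstCase
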